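import Pool.Agent.TD.N.Defs
import Pool.Agent.TD.BG.Defs

/-!
# Facets (PAPER2.md, FA): definitions

`A` is spanned by characters `chi m`, `m` in a group `N`.
-/

open scoped Topology NNReal

namespace Pool.Agent.TD.FA

variable {K A N : Type} [NormedField K] [CommRing A] [Algebra K A] [AddCommGroup N]

/-- Evaluation of a linear combination of characters. -/
noncomputable def ev (chi : N → A) (F : N →₀ K) : A := F.sum fun m c => algebraMap K A c * chi m

/-- The weight `exp (w m)`. -/
noncomputable def wt (w : N → ℝ) (m : N) : ℝ≥0 := (Real.exp (w m)).toNNReal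

/-- The quotient norm on `A` of the weighted sup norm. -/
noncomputable def qn (chi : N → A) (w : N → ℝ) (a : A) : ℝ≥0 :=
  sInf {s | ∃ F : N →₀ K, ev chi F = a ∧ s = BG.nrm (wt w) F}

/-- The fibre `F_w`. -/
def Fib (K : Type) {A N : Type} [NormedField K] [CommRing A] [Algebra K A]
    (chi : N → A) (w : N → ℝ) : Set (Ber K A) := {z | ∀ m, z.v (chi m) = Real.exp (w m)}

/-- Data of a facet: characters, a point `w` such that the points `w + s_v`,
`s_v(m) = ∑ coef m i * v i`, `v` small, have non-empty fibres, and the weight is one. -/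
structure Facet (K : Type) {A N σ : Type} [NormedField K] [CommRing A] [Algebra K A]
    [AddCommGroup N] [Fintype σ] (chi : N → A) (u : σ → N) (coef : N →+ (σ → ℤ))
    (w : N →+ ℝ) : Prop where
  chi_zero : chi 0 = 1
  chi_add : ∀ m m', chi (m + m') = chi m * chi m'
  span : ∀ a : A, ∃ F : N →₀ K, ev chi F = a
  fg : AddGroup.FG N
  coef_self : ∀ i, coef (u i) i = 1
  coef_ne : ∀ i j, i ≠ j → coef (u i) j = 0
  near : ∃ δ : ℝ, 0 < δ ∧ ∀ v : σ → ℝ, (∀ i, |v i| < δ) →
    (Fib K chi fun m => w m + ∑ i, (coef m i : ℝ) * v i).Nonempty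
  weight : ∀ m, coef m = 0 → ∃ c : K, (qn (K := K) chi w (chi m - algebraMap K A c) : ℝ) <
    Real.exp (w m)

end Pool.Agent.TD.FA
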