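import Pool.Agent.TD.FA.Qn

/-! Facets (PAPER2.md, FA1): Laurent polynomials in `u` are dense (module TD_FA_DNS). -/

open scoped Topology NNReal

namespace Pool.Agent.TD.FA

variable {K A N σ : Type} [NormedField K] [IsUltrametricDist K] [CommRing A] [Algebra K A]
  [AddCommGroup N] [Fintype σ] {chi : N → A} {u : σ → N} {coef : N →+ (σ → ℤ)} {w : N →+ ℝ}

/-- The Laurent monomial in `u` with exponent `a`. -/
def um (u : σ → N) (a : σ → ℤ) : N := ∑ i, a i • u i

namespace Dns

/-! ### Evaluation -/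

section ev

variable {K A N : Type} [NormedField K] [CommRing A] [Algebra K A] {chi : N → A}

theorem ev_zero : ev chi (0 : N →₀ K) = 0 := Finsupp.sum_zero_index

theorem ev_add (F G : N →₀ K) : ev chi (F + G) = ev chi F + ev chi G := by
  classical
  unfold ev
  rw [Finsupp.sum_add_index']
  · intro m
    rw [map_zero, zero_mul]
  · intro m c c'
    rw [map_add, add_mul]

theorem ev_single (m : N) (c : K) : ev chi (Finsupp.single m c) = algebraMap K A c * chi m := by
  unfold ev
  rw [Finsupp.sum_single_index]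
  rw [map_zero, zero_mul]

theorem ev_sum {ι : Type} (s : Finset ι) (F : ι → N →₀ K) :
    ev chi (∑ i ∈ s, F i) = ∑ i ∈ s, ev chi (F i) := by
  classical
  induction s using Finset.induction_on with
  | empty => rw [Finset.sum_empty, Finset.sum_empty, ev_zero]
  | insert i s hi ih => rw [Finset.sum_insert hi, Finset.sum_insert hi, ev_add, ih]

end ev

/-! ### The quotient norm as a real number -/

theorem q_add (hs : ∀ a : A, ∃ F : N →₀ K, ev chi F = a) (a b : A) :
    (qn (K := K) chi w (a + b) : ℝ) ≤ max (qn (K := K) chi w a : ℝ) (qn (K := K) chi w b) := by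
  have h := qn_add (K := K) (w := w) hs a b
  exact_mod_cast h

theorem q_mul (h0 : chi 0 = 1) (hm : ∀ m m', chi (m + m') = chi m * chi m')
    (hs : ∀ a : A, ∃ F : N →₀ K, ev chi F = a) (a b : A) :
    (qn (K := K) chi w (a * b) : ℝ) ≤ (qn (K := K) chi w a : ℝ) * (qn (K := K) chi w b) := by
  have h := qn_mul (K := K) (w := w) h0 hm hs a b
  exact_mod_cast h

theorem q_sum (hs : ∀ a : A, ∃ F : N →₀ K, ev chi F = a) {ι : Type} (s : Finset ι) (f : ι → A)
    {B : ℝ} (hB : 0 ≤ B) (h : ∀ i ∈ s, (qn (K := K) chi w (f i) : ℝ) ≤ B) :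
    (qn (K := K) chi w (∑ i ∈ s, f i) : ℝ) ≤ B := by
  classical
  induction s using Finset.induction_on with
  | empty =>
    rw [Finset.sum_empty, qn_zero]
    exact hB
  | insert i s hi ih =>
    rw [Finset.sum_insert hi]
    exact (q_add hs _ _).trans (max_le (h i (Finset.mem_insert_self i s))
      (ih fun j hj => h j (Finset.mem_insert_of_mem hj)))

/-! ### The kernel of `coef` -/

/-- A uniform approximation of the character `m0` by a constant. -/
def Good (K : Type) {A N : Type} [NormedField K] [CommRing A] [Algebra K A] [AddCommGroup N]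
    (chi : N → A) (w : N →+ ℝ) (θ : ℝ) (m0 : N) : Prop :=
  ∃ c : K, ‖c‖ = Real.exp (w m0) ∧
    (qn (K := K) chi w (chi m0 - algebraMap K A c) : ℝ) ≤ θ * Real.exp (w m0)

theorem Good.mono {θ θ' : ℝ} (hθ : θ ≤ θ') {m0 : N} (h : Good K chi w θ m0) :
    Good K chi w θ' m0 := by
  obtain ⟨c, h1, h2⟩ := h
  exact ⟨c, h1, h2.trans (mul_le_mul_of_nonneg_right hθ (Real.exp_pos _).le)⟩

theorem Good.zero (h : Facet K chi u coef w) {θ : ℝ} (hθ : 0 ≤ θ) : Good K chi w θ (0 : N) := by
  refine ⟨1, by rw [map_zero, Real.exp_zero, norm_one], ?_⟩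
  rw [h.chi_zero, map_one, sub_self, qn_zero, map_zero, Real.exp_zero, mul_one]
  exact hθ

theorem Good.add (h : Facet K chi u coef w) {θ : ℝ} {g g' : N}
    (hg : Good K chi w θ g) (hg' : Good K chi w θ g') : Good K chi w θ (g + g') := by
  obtain ⟨c, h1, h2⟩ := hg
  obtain ⟨c', h1', h2'⟩ := hg'
  refine ⟨c * c', by rw [norm_mul, h1, h1', map_add, Real.exp_add], ?_⟩
  have e : chi (g + g') - algebraMap K A (c * c') =
      chi g * (chi g' - algebraMap K A c') + algebraMap K A c' * (chi g - algebraMap K A c) := by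
    rw [h.chi_add, map_mul]
    ring
  rw [e]
  refine (q_add h.span _ _).trans (max_le ?_ ?_)
  · refine (q_mul h.chi_zero h.chi_add h.span _ _).trans ?_
    calc (qn (K := K) chi w (chi g) : ℝ) * (qn (K := K) chi w (chi g' - algebraMap K A c'))
        ≤ Real.exp (w g) * (θ * Real.exp (w g')) :=
          mul_le_mul (qn_chi g) h2' (NNReal.coe_nonneg _) (Real.exp_pos _).le
      _ = θ * Real.exp (w (g + g')) := by rw [map_add, Real.exp_add]; ring
  · refine (q_mul h.chi_zero h.chi_add h.span _ _).trans ?_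
    calc (qn (K := K) chi w (algebraMap K A c') : ℝ) * (qn (K := K) chi w (chi g - algebraMap K A c))
        ≤ ‖c'‖ * (θ * Real.exp (w g)) :=
          mul_le_mul (qn_C h.chi_zero c') h2 (NNReal.coe_nonneg _) (norm_nonneg _)
      _ = θ * Real.exp (w (g + g')) := by rw [h1', map_add, Real.exp_add]; ring

theorem Good.neg (h : Facet K chi u coef w) {θ : ℝ} {g : N} (hg : Good K chi w θ g) :
    Good K chi w θ (-g) := by
  obtain ⟨c, h1, h2⟩ := hg
  have hc0 : ‖c‖ ≠ 0 := by rw [h1]; exact (Real.exp_pos _).ne'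
  have hc : c ≠ 0 := norm_ne_zero_iff.1 hc0
  have hn : ‖c⁻¹‖ = Real.exp (w (-g)) := by rw [norm_inv, h1, map_neg, Real.exp_neg]
  refine ⟨c⁻¹, hn, ?_⟩
  have e1 : chi (-g) * chi g = 1 := by rw [← h.chi_add, neg_add_cancel, h.chi_zero]
  have e2 : algebraMap K A c⁻¹ * algebraMap K A c = 1 := by
    rw [← map_mul, inv_mul_cancel₀ hc, map_one]
  have e : chi (-g) - algebraMap K A c⁻¹ =
      -(chi (-g) * (algebraMap K A c⁻¹ * (chi g - algebraMap K A c))) := by
    have e3 : chi (-g) * (algebraMap K A c⁻¹ * (chi g - algebraMap K A c)) =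
        (chi (-g) * chi g) * algebraMap K A c⁻¹ -
          chi (-g) * (algebraMap K A c⁻¹ * algebraMap K A c) := by ring
    rw [e3, e1, e2]
    ring
  rw [e, qn_neg]
  refine (q_mul h.chi_zero h.chi_add h.span _ _).trans ?_
  have h3 : (qn (K := K) chi w (algebraMap K A c⁻¹ * (chi g - algebraMap K A c)) : ℝ) ≤
      Real.exp (w (-g)) * (θ * Real.exp (w g)) := by
    refine (q_mul h.chi_zero h.chi_add h.span _ _).trans ?_
    exact mul_le_mul ((qn_C h.chi_zero c⁻¹).trans hn.le) h2 (NNReal.coe_nonneg _)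
      (Real.exp_pos _).le
  calc (qn (K := K) chi w (chi (-g)) : ℝ) *
        (qn (K := K) chi w (algebraMap K A c⁻¹ * (chi g - algebraMap K A c)))
      ≤ Real.exp (w (-g)) * (Real.exp (w (-g)) * (θ * Real.exp (w g))) :=
        mul_le_mul (qn_chi (-g)) h3 (NNReal.coe_nonneg _) (Real.exp_pos _).le
    _ = θ * Real.exp (w (-g)) := by
        have e4 : Real.exp (w (-g)) * Real.exp (w g) = 1 := by
          rw [← Real.exp_add, ← map_add, neg_add_cancel, map_zero, Real.exp_zero]
        calc Real.exp (w (-g)) * (Real.exp (w (-g)) * (θ * Real.exp (w g)))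
            = θ * Real.exp (w (-g)) * (Real.exp (w (-g)) * Real.exp (w g)) := by ring
          _ = θ * Real.exp (w (-g)) := by rw [e4, mul_one]

/-- The fibre at `w` is not empty. -/
theorem fib_nonempty (h : Facet K chi u coef w) : (Fib K chi w).Nonempty := by
  obtain ⟨δ, hδ, hv⟩ := h.near
  have h1 := hv (fun _ => 0) (fun i => by rw [abs_zero]; exact hδ)
  have e : (fun m => w m + ∑ i, (coef m i : ℝ) * (fun _ : σ => (0 : ℝ)) i) = w := by
    funext m
    simp
  rwa [e] at h1

/-- Every element of the kernel is approximated. -/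
theorem exists_good (h : Facet K chi u coef w) {m0 : N} (hm : coef m0 = 0) :
    ∃ θ : ℝ, 0 ≤ θ ∧ θ < 1 ∧ Good K chi w θ m0 := by
  obtain ⟨c, hc⟩ := h.weight m0 hm
  obtain ⟨z, hz⟩ := fib_nonempty h
  have hp : 0 < Real.exp (w m0) := Real.exp_pos _
  refine ⟨(qn (K := K) chi w (chi m0 - algebraMap K A c) : ℝ) / Real.exp (w m0),
    div_nonneg (NNReal.coe_nonneg _) hp.le, (div_lt_one hp).2 hc, c, ?_, ?_⟩
  · have h1 : z.v (chi m0) = Real.exp (w m0) := hz m0
    have h2 : z.v (chi m0 - algebraMap K A c) < z.v (chi m0) := by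
      rw [h1]
      exact (v_le_qn h.span hz _).trans_lt hc
    have h3 := z.sub_eq h2
    rw [z.ext] at h3
    rw [h3, h1]
  · rw [div_mul_cancel₀ _ hp.ne']

/-- One constant for finitely many elements. -/
theorem exists_good_finset (h : Facet K chi u coef w) (S : Finset N)
    (hS : ∀ m0 ∈ S, coef m0 = 0) :
    ∃ θ : ℝ, 0 ≤ θ ∧ θ < 1 ∧ ∀ m0 ∈ S, Good K chi w θ m0 := by
  classical
  induction S using Finset.induction_on with
  | empty => exact ⟨0, le_rfl, one_pos, fun m hm => absurd hm (Finset.notMem_empty m)⟩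
  | insert g S hg ih =>
    obtain ⟨θ, h0, h1, h2⟩ := ih fun m hm => hS m (Finset.mem_insert_of_mem hm)
    obtain ⟨θ', h0', h1', h2'⟩ := exists_good h (hS g (Finset.mem_insert_self g S))
    refine ⟨max θ θ', h0.trans (le_max_left _ _), max_lt h1 h1', fun m hm => ?_⟩
    rcases Finset.mem_insert.1 hm with rfl | hm
    · exact h2'.mono (le_max_right _ _)
    · exact (h2 m hm).mono (le_max_left _ _)

/-- The kernel is finitely generated. -/
theorem ker_fg (h : Facet K chi u coef w) : coef.ker.FG := by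
  haveI : Module.Finite ℤ N := Module.Finite.iff_addGroup_fg.2 h.fg
  have h1 : (AddSubgroup.toIntSubmodule coef.ker).FG := IsNoetherian.noetherian _
  have h2 := (Submodule.fg_iff_addSubgroup_fg _).1 h1
  exact h2

theorem exists_theta_ker (h : Facet K chi u coef w) :
    ∃ θ : ℝ, 0 ≤ θ ∧ θ < 1 ∧ ∀ m0 : N, coef m0 = 0 → Good K chi w θ m0 := by
  obtain ⟨S, hS⟩ := ker_fg h
  have hS' : ∀ m0 ∈ S, coef m0 = 0 := by
    intro m0 hm
    have h1 : m0 ∈ coef.ker := by
      rw [← hS]
      exact AddSubgroup.subset_closure hm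
    exact h1
  obtain ⟨θ, h0, h1, h2⟩ := exists_good_finset h S hS'
  refine ⟨θ, h0, h1, fun m0 hm => ?_⟩
  let T : AddSubgroup N :=
    { carrier := {m | Good K chi w θ m}
      zero_mem' := Good.zero h h0
      add_mem' := fun ha hb => Good.add h ha hb
      neg_mem' := fun ha => Good.neg h ha }
  have h3 : AddSubgroup.closure (S : Set N) ≤ T := (AddSubgroup.closure_le T).2 h2
  rw [hS] at h3
  exact h3 hm

/-! ### The exponents of `um` -/

theorem coef_um (h : Facet K chi u coef w) (a : σ → ℤ) : coef (um u a) = a := by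
  classical
  funext j
  unfold um
  rw [map_sum, Finset.sum_apply, Finset.sum_eq_single j]
  · rw [map_zsmul, Pi.smul_apply, h.coef_self, smul_eq_mul, mul_one]
  · intro i _ hij
    rw [map_zsmul, Pi.smul_apply, h.coef_ne i j hij, smul_zero]
  · intro hj
    exact absurd (Finset.mem_univ j) hj

/-- Approximation of a combination of characters. -/
theorem approx_ev (h : Facet K chi u coef w) {θ : ℝ} (hθ : 0 ≤ θ) (c : N → K)
    (hc : ∀ m, (qn (K := K) chi w (chi m - algebraMap K A (c m) * chi (um u (coef m))) : ℝ) ≤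
      θ * Real.exp (w m)) (F : N →₀ K) :
    (qn (K := K) chi w (ev chi F - ev (fun n => chi (um u n))
      (∑ m ∈ F.support, Finsupp.single (coef m) (F m * c m))) : ℝ) ≤ θ * BG.nrm (wt w) F := by
  have e : ev chi F - ev (fun n => chi (um u n))
      (∑ m ∈ F.support, Finsupp.single (coef m) (F m * c m)) =
      ∑ m ∈ F.support, algebraMap K A (F m) *
        (chi m - algebraMap K A (c m) * chi (um u (coef m))) := by
    rw [ev_sum]
    have e1 : ev chi F = ∑ m ∈ F.support, algebraMap K A (F m) * chi m := rfl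
    rw [e1, ← Finset.sum_sub_distrib]
    refine Finset.sum_congr rfl fun m _ => ?_
    rw [ev_single, map_mul]
    ring
  rw [e]
  refine q_sum h.span _ _ (mul_nonneg hθ (NNReal.coe_nonneg _)) fun m _ => ?_
  refine (q_mul h.chi_zero h.chi_add h.span _ _).trans ?_
  have h1 : ‖F m‖ * Real.exp (w m) ≤ BG.nrm (wt w) F := by
    have h2 := BG.le_nrm (wt := wt w) F m
    have h3 : ((‖F m‖₊ * wt w m : ℝ≥0) : ℝ) ≤ BG.nrm (wt w) F := NNReal.coe_le_coe.2 h2
    rw [NNReal.coe_mul, coe_nnnorm] at h3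
    unfold wt at h3
    rwa [Real.coe_toNNReal _ (Real.exp_pos _).le] at h3
  calc (qn (K := K) chi w (algebraMap K A (F m)) : ℝ) *
        (qn (K := K) chi w (chi m - algebraMap K A (c m) * chi (um u (coef m))))
      ≤ ‖F m‖ * (θ * Real.exp (w m)) :=
        mul_le_mul (qn_C h.chi_zero _) (hc m) (NNReal.coe_nonneg _) (norm_nonneg _)
    _ = θ * (‖F m‖ * Real.exp (w m)) := by ring
    _ ≤ θ * BG.nrm (wt w) F := mul_le_mul_of_nonneg_left h1 hθ

end Dns

open Dns

/-- (FA1), first part: uniform approximation of characters. -/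
theorem exists_theta (h : Facet K chi u coef w) : ∃ θ : ℝ, 0 ≤ θ ∧ θ < 1 ∧ ∀ m : N, ∃ c : K,
    ‖c‖ * Real.exp (w (um u (coef m))) = Real.exp (w m) ∧
    (qn (K := K) chi w (chi m - algebraMap K A c * chi (um u (coef m))) : ℝ) ≤
      θ * Real.exp (w m) := by
  obtain ⟨θ, h0, h1, h2⟩ := exists_theta_ker h
  refine ⟨θ, h0, h1, fun m => ?_⟩
  have hk : coef (m - um u (coef m)) = 0 := by rw [map_sub, coef_um h, sub_self]
  obtain ⟨c, hc1, hc2⟩ := h2 _ hk
  have hw : Real.exp (w (m - um u (coef m))) * Real.exp (w (um u (coef m))) =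
      Real.exp (w m) := by
    rw [← Real.exp_add, ← map_add, sub_add_cancel]
  refine ⟨c, by rw [hc1, hw], ?_⟩
  have e : chi m - algebraMap K A c * chi (um u (coef m)) =
      chi (um u (coef m)) * (chi (m - um u (coef m)) - algebraMap K A c) := by
    have e1 : chi m = chi (um u (coef m)) * chi (m - um u (coef m)) := by
      rw [← h.chi_add, add_sub_cancel]
    rw [mul_sub, ← e1]
    ring
  rw [e]
  refine (q_mul h.chi_zero h.chi_add h.span _ _).trans ?_
  calc (qn (K := K) chi w (chi (um u (coef m))) : ℝ) *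
        (qn (K := K) chi w (chi (m - um u (coef m)) - algebraMap K A c))
      ≤ Real.exp (w (um u (coef m))) * (θ * Real.exp (w (m - um u (coef m)))) :=
        mul_le_mul (qn_chi _) hc2 (NNReal.coe_nonneg _) (Real.exp_pos _).le
    _ = θ * Real.exp (w m) := by rw [← hw]; ring

/-- (FA1): density. -/
theorem exists_approx (h : Facet K chi u coef w) (a : A) {ε : ℝ} (hε : 0 < ε) :
    ∃ G : (σ → ℤ) →₀ K, (qn (K := K) chi w (a - ev (fun n => chi (um u n)) G) : ℝ) < ε := by
  obtain ⟨θ0, h00, h01, h02⟩ := exists_theta h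
  choose c hc1 hc2 using h02
  -- a constant between `θ0` and `1`
  obtain ⟨θ, hθ0, hθ1⟩ := exists_between h01
  have hθp : 0 < θ := lt_of_le_of_lt h00 hθ0
  -- one step
  have step : ∀ b : A, ∃ G : (σ → ℤ) →₀ K,
      (qn (K := K) chi w (b - ev (fun n => chi (um u n)) G) : ℝ) ≤ θ * qn (K := K) chi w b := by
    intro b
    by_cases hb : qn (K := K) chi w b = 0
    · refine ⟨0, ?_⟩
      rw [ev_zero, sub_zero, hb, NNReal.coe_zero, mul_zero]
    · have hbp : 0 < qn (K := K) chi w b := pos_iff_ne_zero.2 hb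
      have hbp' : (0 : ℝ) < qn (K := K) chi w b := NNReal.coe_pos.2 hbp
      -- the error allowed for the representation
      obtain ⟨η, hη0, hη⟩ : ∃ η : ℝ≥0, 0 < η ∧
          θ0 * ((qn (K := K) chi w b : ℝ) + η) ≤ θ * qn (K := K) chi w b := by
        have h3 : 0 < (θ - θ0) * (qn (K := K) chi w b : ℝ) := mul_pos (sub_pos.2 hθ0) hbp'
        refine ⟨((θ - θ0) * (qn (K := K) chi w b : ℝ)).toNNReal, Real.toNNReal_pos.2 h3, ?_⟩
        rw [Real.coe_toNNReal _ h3.le]
        have h4 : θ0 * ((θ - θ0) * (qn (K := K) chi w b : ℝ)) ≤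
            1 * ((θ - θ0) * (qn (K := K) chi w b : ℝ)) := mul_le_mul_of_nonneg_right h01.le h3.le
        nlinarith [h4]
      obtain ⟨F, hF1, hF2⟩ := exists_lt (K := K) (w := w) h.span b hη0
      have h5 := approx_ev h h00 c hc2 F
      rw [hF1] at h5
      refine ⟨_, h5.trans ?_⟩
      refine (mul_le_mul_of_nonneg_left ?_ h00).trans hη
      have h6 : (BG.nrm (wt w) F : ℝ) < ((qn (K := K) chi w b + η : ℝ≥0) : ℝ) :=
        NNReal.coe_lt_coe.2 hF2
      rw [NNReal.coe_add] at h6
      exact h6.le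
  -- iteration
  have iter : ∀ k : ℕ, ∃ G : (σ → ℤ) →₀ K,
      (qn (K := K) chi w (a - ev (fun n => chi (um u n)) G) : ℝ) ≤
        θ ^ k * qn (K := K) chi w a := by
    intro k
    induction k with
    | zero =>
      refine ⟨0, ?_⟩
      rw [ev_zero, sub_zero, pow_zero, one_mul]
    | succ k ih =>
      obtain ⟨G, hG⟩ := ih
      obtain ⟨G', hG'⟩ := step (a - ev (fun n => chi (um u n)) G)
      refine ⟨G + G', ?_⟩
      rw [ev_add, ← sub_sub]
      refine hG'.trans ?_
      rw [pow_succ, mul_comm (θ ^ k) θ, mul_assoc]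
      exact mul_le_mul_of_nonneg_left hG hθp.le
  obtain ⟨k, hk⟩ := exists_pow_lt_of_lt_one (div_pos hε (by
    have := NNReal.coe_nonneg (qn (K := K) chi w a)
    linarith : (0 : ℝ) < (qn (K := K) chi w a : ℝ) + 1)) hθ1
  obtain ⟨G, hG⟩ := iter k
  refine ⟨G, hG.trans_lt ?_⟩
  have hq := NNReal.coe_nonneg (qn (K := K) chi w a)
  have hq1 : (0 : ℝ) < (qn (K := K) chi w a : ℝ) + 1 := by linarith
  rw [lt_div_iff₀ hq1] at hk
  refine lt_of_le_of_lt ?_ hk
  exact mul_le_mul_of_nonneg_left (by linarith) (pow_pos hθp k).le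

end Pool.Agent.TD.FA
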