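import Pool.Agent.TD.FA.Dns

/-! Facets (PAPER2.md, FA3): the quotient norm of Laurent polynomials in `u`
(module TD_FA_GAU). -/

open scoped Topology NNReal

namespace Pool.Agent.TD.FA

variable {K A N σ : Type} [NormedField K] [IsUltrametricDist K] [CommRing A] [Algebra K A]
  [AddCommGroup N] [Fintype σ] {chi : N → A} {u : σ → N} {coef : N →+ (σ → ℤ)} {w : N →+ ℝ}

omit [IsUltrametricDist K] in
private theorem coef_um' (h : Facet K chi u coef w) (n : σ → ℤ) : coef (um u n) = n := by
  classical
  funext j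
  unfold um
  rw [map_sum, Finset.sum_apply, Finset.sum_eq_single j]
  · rw [map_zsmul, Pi.smul_apply, h.coef_self, smul_eq_mul, mul_one]
  · intro i _ hij
    rw [map_zsmul, Pi.smul_apply, h.coef_ne i j hij, smul_zero]
  · intro hj
    exact absurd (Finset.mem_univ j) hj

omit [IsUltrametricDist K] in
private theorem um_inj' (h : Facet K chi u coef w) : Function.Injective (um u) := by
  intro a b hab
  rw [← coef_um' h a, hab, coef_um' h b]

omit [IsUltrametricDist K] [AddCommGroup N] [Fintype σ] in
private theorem coe_wt' (w : N → ℝ) (m : N) : ((wt w m : ℝ≥0) : ℝ) = Real.exp (w m) :=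
  Real.coe_toNNReal _ (Real.exp_pos _).le

omit [IsUltrametricDist K] in
private theorem ev_map' (G : (σ → ℤ) →₀ K) :
    ev chi (G.mapDomain (um u)) = ev (fun n => chi (um u n)) G := by
  unfold ev
  rw [Finsupp.sum_mapDomain_index]
  · intro b; simp
  · intro b x y; rw [map_add, add_mul]

omit [IsUltrametricDist K] [AddCommGroup N] [Fintype σ] in
private theorem ev_sub' (F G : N →₀ K) : ev chi (F - G) = ev chi F - ev chi G := by
  unfold ev
  rw [Finsupp.sum_sub_index]
  intro b x y
  rw [map_sub, sub_mul]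

/-- (FA3) -/
theorem qn_laurent (h : Facet K chi u coef w) (G : (σ → ℤ) →₀ K) :
    qn (K := K) chi w (ev (fun n => chi (um u n)) G) = BG.nrm (wt fun n => w (um u n)) G := by
  classical
  set P0 : N →₀ K := G.mapDomain (um u) with hP0
  have hinj := um_inj' h
  have hP0a : ∀ n, P0 (um u n) = G n := fun n => Finsupp.mapDomain_apply hinj G n
  have hP0z : ∀ m, P0 m ≠ 0 → ∃ n, m = um u n := by
    intro m hm
    by_contra hcon
    push Not at hcon
    apply hm
    apply Finsupp.mapDomain_of_notMem_range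
    rintro ⟨n, hn⟩
    exact hcon n hn.symm
  apply le_antisymm
  · rw [← ev_map']
    refine (qn_le _).trans ?_
    rw [BG.nrm_le_iff]
    intro m
    by_cases hm : P0 m = 0
    · rw [← hP0, hm, nnnorm_zero, zero_mul]; exact bot_le
    · obtain ⟨n, rfl⟩ := hP0z m hm
      rw [← hP0, hP0a]
      exact BG.le_nrm (wt := wt fun n => w (um u n)) G n
  · by_contra hcon
    rw [not_le] at hcon
    obtain ⟨F, hF, hFlt⟩ := exists_lt (w := w) h.span (ev (fun n => chi (um u n)) G)
      (tsub_pos_of_lt hcon)
    rw [add_tsub_cancel_of_le hcon.le] at hFlt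
    set N0 : ℝ≥0 := BG.nrm (wt fun n => w (um u n)) G with hN0
    have hN0pos : 0 < N0 := pos_of_gt hcon
    have hG0 : G ≠ 0 := by
      rintro rfl
      rw [hN0, BG.nrm_zero] at hN0pos
      exact lt_irrefl _ hN0pos
    -- the set S and its extreme point
    let S : Finset (σ → ℤ) := G.support.filter
      fun n => ‖G n‖₊ * (wt fun n => w (um u n)) n = N0
    obtain ⟨n1, hn1, hn1'⟩ := BG.exists_nrm_eq (wt := wt fun n => w (um u n)) hG0
    have hS : S.Nonempty := ⟨n1, by simp only [S, Finset.mem_filter, Finsupp.mem_support_iff];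
                                     exact ⟨hn1, hn1'⟩⟩
    obtain ⟨n0, hn0S, hn0max⟩ := S.exists_max_image (fun n => ∑ i, (n i) ^ 2) hS
    have hn0 : ‖G n0‖₊ * (wt fun n => w (um u n)) n0 = N0 := (Finset.mem_filter.1 hn0S).2
    have hlt : ∀ n ∈ S, n ≠ n0 → ∑ i, (n i : ℝ) * (n0 i : ℝ) < ∑ i, (n0 i : ℝ) * (n0 i : ℝ) := by
      intro n hn hne
      have h1 : ∑ i, (n i) ^ 2 ≤ ∑ i, (n0 i) ^ 2 := hn0max n hn
      have h2 : 0 < ∑ i, (n i - n0 i) ^ 2 := by
        obtain ⟨i, hi⟩ : ∃ i, n i ≠ n0 i := by
          by_contra hc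
          push Not at hc
          exact hne (funext hc)
        apply Finset.sum_pos' (fun i _ => sq_nonneg _)
        exact ⟨i, Finset.mem_univ i, by
          have : n i - n0 i ≠ 0 := sub_ne_zero.2 hi
          positivity⟩
      have h3 : ∑ i, (n i - n0 i) ^ 2 =
          ∑ i, (n i) ^ 2 - 2 * ∑ i, n i * n0 i + ∑ i, (n0 i) ^ 2 := by
        rw [Finset.mul_sum, ← Finset.sum_sub_distrib, ← Finset.sum_add_distrib]
        exact Finset.sum_congr rfl fun i _ => by ring
      have h4 : ∑ i, n0 i * n0 i = ∑ i, (n0 i) ^ 2 :=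
        Finset.sum_congr rfl fun i _ => by ring
      have h5 : ∑ i, n i * n0 i < ∑ i, n0 i * n0 i := by
        rw [h4]; linarith
      exact_mod_cast h5
    -- the function L
    let L : N → ℝ := fun m => ∑ i, (coef m i : ℝ) * (n0 i : ℝ)
    have hLum : ∀ n, L (um u n) = ∑ i, (n i : ℝ) * (n0 i : ℝ) := by
      intro n
      simp only [L, coef_um' h]
    set P : N →₀ K := P0 - F with hP
    have hPev : ev chi P = 0 := by
      rw [hP, ev_sub', hF, hP0, ev_map', sub_self]
    have hFm : ∀ m, ‖F m‖ * Real.exp (w m) < N0 := by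
      intro m
      have h1 := (BG.le_nrm (wt := wt w) F m).trans_lt hFlt
      have h2 : ((‖F m‖₊ * wt w m : ℝ≥0) : ℝ) < N0 := NNReal.coe_lt_coe.2 h1
      rw [NNReal.coe_mul, coe_wt', coe_nnnorm] at h2
      exact h2
    have hn0' : ‖G n0‖ * Real.exp (w (um u n0)) = N0 := by
      rw [← hn0, NNReal.coe_mul, coe_wt', coe_nnnorm]
    have hPum : ‖P (um u n0)‖ = ‖G n0‖ := by
      have h1 : ‖F (um u n0)‖ < ‖G n0‖ := by
        have h2 := hFm (um u n0)
        rw [← hn0'] at h2
        exact lt_of_mul_lt_mul_right h2 (Real.exp_pos _).le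
      rw [hP, Finsupp.sub_apply, hP0a, sub_eq_add_neg,
        IsUltrametricDist.norm_add_eq_max_of_norm_ne_norm, norm_neg, max_eq_left h1.le]
      rw [norm_neg]
      exact h1.ne'
    have hPlt : ∀ m, m ≠ um u n0 → ∀ᶠ t : ℝ in 𝓝[>] 0,
        ‖P m‖ * Real.exp (w m + t * L m) < N0 * Real.exp (t * L (um u n0)) := by
      intro m hm
      by_cases hcase : ‖P m‖ * Real.exp (w m) < N0
      · have hcont : ContinuousAt (fun t : ℝ => N0 * Real.exp (t * L (um u n0)) -
            ‖P m‖ * Real.exp (w m + t * L m)) 0 := by fun_prop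
        have h0 : 0 < (fun t : ℝ => N0 * Real.exp (t * L (um u n0)) -
            ‖P m‖ * Real.exp (w m + t * L m)) 0 := by
          simp only [zero_mul, Real.exp_zero, mul_one, add_zero]
          linarith
        have h1 := hcont.eventually (lt_mem_nhds h0)
        have h2 : ∀ᶠ t : ℝ in 𝓝[>] 0, 0 < N0 * Real.exp (t * L (um u n0)) -
            ‖P m‖ * Real.exp (w m + t * L m) := nhdsWithin_le_nhds h1
        filter_upwards [h2] with t ht
        linarith
      · rw [not_lt] at hcase
        have hle : ‖P m‖ ≤ max ‖P0 m‖ ‖F m‖ := by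
          rw [hP, Finsupp.sub_apply, sub_eq_add_neg, ← norm_neg (F m)]
          exact IsUltrametricDist.norm_add_le_max _ _
        have hex := Real.exp_pos (w m)
        have h1 : ‖P m‖ * Real.exp (w m) ≤
            max (‖P0 m‖ * Real.exp (w m)) (‖F m‖ * Real.exp (w m)) := by
          rw [← max_mul_of_nonneg _ _ hex.le]
          exact mul_le_mul_of_nonneg_right hle hex.le
        have h2 : N0 ≤ ‖P0 m‖ * Real.exp (w m) := by
          rcases le_max_iff.1 (hcase.trans h1) with h3 | h3
          · exact h3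
          · exact absurd (hFm m) (not_lt.2 h3)
        have hne : P0 m ≠ 0 := by
          intro h3
          rw [h3, norm_zero, zero_mul] at h2
          exact absurd (NNReal.coe_pos.2 hN0pos) (not_lt.2 h2)
        obtain ⟨n, rfl⟩ := hP0z m hne
        rw [hP0a] at h2 h1 hne
        have h4 : ‖G n‖ * Real.exp (w (um u n)) ≤ N0 := by
          have h5 := BG.le_nrm (wt := wt fun n => w (um u n)) G n
          have h6 : ((‖G n‖₊ * (wt fun n => w (um u n)) n : ℝ≥0) : ℝ) ≤ N0 :=
            NNReal.coe_le_coe.2 h5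
          rwa [NNReal.coe_mul, coe_wt', coe_nnnorm] at h6
        have h7 : ‖G n‖ * Real.exp (w (um u n)) = N0 := le_antisymm h4 h2
        have hnS : n ∈ S := by
          simp only [S, Finset.mem_filter, Finsupp.mem_support_iff]
          refine ⟨hne, ?_⟩
          apply NNReal.eq
          rw [NNReal.coe_mul, coe_wt', coe_nnnorm]
          exact h7
        have hnn : n ≠ n0 := by
          rintro rfl
          exact hm rfl
        have h8 := hlt n hnS hnn
        rw [← hLum, ← hLum] at h8
        have h9 : ‖P (um u n)‖ * Real.exp (w (um u n)) ≤ N0 :=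
          h1.trans (max_le h4 (hFm _).le)
        filter_upwards [self_mem_nhdsWithin] with t ht
        have ht' : (0 : ℝ) < t := ht
        rw [Real.exp_add, ← mul_assoc]
        have h10 : Real.exp (t * L (um u n)) < Real.exp (t * L (um u n0)) :=
          Real.exp_lt_exp.2 (mul_lt_mul_of_pos_left h8 ht')
        calc ‖P (um u n)‖ * Real.exp (w (um u n)) * Real.exp (t * L (um u n))
            ≤ N0 * Real.exp (t * L (um u n)) :=
              mul_le_mul_of_nonneg_right h9 (Real.exp_pos _).le
          _ < N0 * Real.exp (t * L (um u n0)) :=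
              mul_lt_mul_of_pos_left h10 (NNReal.coe_pos.2 hN0pos)
    obtain ⟨δ, hδ, hnear⟩ := h.near
    have hev1 : ∀ᶠ t : ℝ in 𝓝[>] 0, ∀ m ∈ P.support, m ≠ um u n0 →
        ‖P m‖ * Real.exp (w m + t * L m) < N0 * Real.exp (t * L (um u n0)) := by
      rw [Filter.eventually_all_finset]
      intro m _
      by_cases hm : m = um u n0
      · exact Filter.Eventually.of_forall fun t hne => absurd hm hne
      · filter_upwards [hPlt m hm] with t ht _
        exact ht
    have hev2 : ∀ᶠ t : ℝ in 𝓝[>] 0, ∀ i, |t * (n0 i : ℝ)| < δ := by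
      rw [Filter.eventually_all]
      intro i
      have hcont : ContinuousAt (fun t : ℝ => |t * (n0 i : ℝ)|) 0 := by fun_prop
      have h0 : (fun t : ℝ => |t * (n0 i : ℝ)|) 0 < δ := by simpa using hδ
      exact nhdsWithin_le_nhds (hcont.eventually (gt_mem_nhds h0))
    obtain ⟨t, ht1, ht2⟩ := (hev1.and hev2).exists
    obtain ⟨z, hz⟩ := hnear (fun i => t * (n0 i : ℝ)) ht2
    have hwt : ∀ m, w m + ∑ i, (coef m i : ℝ) * (t * (n0 i : ℝ)) = w m + t * L m := by
      intro m
      simp only [L, Finset.mul_sum]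
      congr 1
      exact Finset.sum_congr rfl fun i _ => by ring
    refine not_single hz hPev (um u n0) ⟨?_, ?_⟩
    · intro h0
      rw [h0, norm_zero] at hPum
      rw [← hPum, zero_mul] at hn0'
      exact (NNReal.coe_pos.2 hN0pos).ne hn0'
    · intro m hm
      rw [← NNReal.coe_lt_coe, NNReal.coe_mul, NNReal.coe_mul, coe_wt', coe_wt', coe_nnnorm,
        coe_nnnorm, hwt, hwt, hPum]
      have h11 : ‖G n0‖ * Real.exp (w (um u n0) + t * L (um u n0)) =
          N0 * Real.exp (t * L (um u n0)) := by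
        rw [Real.exp_add, ← mul_assoc, hn0']
      rw [h11]
      by_cases hms : m ∈ P.support
      · exact ht1 m hms hm
      · rw [Finsupp.notMem_support_iff.1 hms, norm_zero, zero_mul]
        exact mul_pos (NNReal.coe_pos.2 hN0pos) (Real.exp_pos _)

end Pool.Agent.TD.FA
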