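import Pool.Agent.TD.FA.Defs
import Pool.Agent.TD.BG.Basic

/-! Facets (PAPER2.md, FA): elementary properties of the quotient norm (module TD_FA_QN). -/

open scoped Topology NNReal

namespace Pool.Agent.TD.FA

namespace Qn

section
variable {K A N : Type} [NormedField K] [CommRing A] [Algebra K A] {chi : N → A}

theorem ev_eq (F : N →₀ K) : ev chi F = Finsupp.linearCombination K chi F := by
  unfold ev
  rw [Finsupp.linearCombination_apply]
  refine Finsupp.sum_congr fun m _ => ?_
  rw [Algebra.smul_def]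

theorem nrm_single_le (wt : N → ℝ≥0) (m : N) (c : K) :
    BG.nrm wt (Finsupp.single m c) ≤ ‖c‖₊ * wt m := by
  classical
  rw [BG.nrm_le_iff]
  intro u
  by_cases h : m = u
  · subst h
    rw [Finsupp.single_eq_same]
  · rw [Finsupp.single_eq_of_ne (Ne.symm h), nnnorm_zero, zero_mul]
    exact bot_le

theorem sum_lt {ι : Type} (z : Ber K A) (s : Finset ι) (f : ι → A) {M : ℝ} (hM : 0 < M)
    (h : ∀ i ∈ s, z.v (f i) < M) : z.v (∑ i ∈ s, f i) < M := by
  classical
  induction s using Finset.induction_on with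
  | empty => simpa [z.zero] using hM
  | insert i s hi ih =>
    rw [Finset.sum_insert hi]
    refine (z.add _ _).trans_lt (max_lt (h i (Finset.mem_insert_self i s)) (ih fun j hj => ?_))
    exact h j (Finset.mem_insert_of_mem hj)

theorem coe_wt (w : N → ℝ) (m : N) : ((wt w m : ℝ≥0) : ℝ) = Real.exp (w m) :=
  Real.coe_toNNReal _ (Real.exp_pos _).le

theorem v_term {w : N → ℝ} {z : Ber K A} (hz : z ∈ Fib K chi w) (c : K) (m : N) :
    z.v (algebraMap K A c * chi m) = ((‖c‖₊ * wt w m : ℝ≥0) : ℝ) := by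
  rw [z.mul, z.ext, hz m, NNReal.coe_mul, coe_wt, coe_nnnorm]

end

end Qn

open Qn

variable {K A N σ : Type} [NormedField K] [IsUltrametricDist K] [CommRing A] [Algebra K A]
  [AddCommGroup N] {chi : N → A} {w : N →+ ℝ}

theorem qn_le (F : N →₀ K) : qn (K := K) chi w (ev chi F) ≤ BG.nrm (wt w) F := by
  exact csInf_le' ⟨F, rfl, rfl⟩

theorem exists_lt (hs : ∀ a : A, ∃ F : N →₀ K, ev chi F = a) (a : A) {ε : ℝ≥0} (hε : 0 < ε) :
    ∃ F : N →₀ K, ev chi F = a ∧ BG.nrm (wt w) F < qn (K := K) chi w a + ε := by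
  obtain ⟨F0, hF0⟩ := hs a
  have h1 : sInf {s | ∃ F : N →₀ K, ev chi F = a ∧ s = BG.nrm (wt w) F} <
      qn (K := K) chi w a + ε := lt_add_of_pos_right _ hε
  have hne : {s | ∃ F : N →₀ K, ev chi F = a ∧ s = BG.nrm (wt w) F}.Nonempty :=
    ⟨BG.nrm (wt w) F0, F0, hF0, rfl⟩
  obtain ⟨s, ⟨F, hF, rfl⟩, hlt⟩ := exists_lt_of_csInf_lt hne h1
  exact ⟨F, hF, hlt⟩

theorem qn_add (hs : ∀ a : A, ∃ F : N →₀ K, ev chi F = a) (a b : A) :
    qn (K := K) chi w (a + b) ≤ max (qn (K := K) chi w a) (qn (K := K) chi w b) := by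
  refine le_of_forall_pos_le_add fun ε hε => ?_
  obtain ⟨F, hF, h1⟩ := exists_lt (w := w) hs a hε
  obtain ⟨G, hG, h2⟩ := exists_lt (w := w) hs b hε
  have h3 : ev chi (F + G) = a + b := by
    rw [ev_eq, map_add, ← ev_eq, ← ev_eq, hF, hG]
  rw [← h3]
  refine (qn_le _).trans ((BG.nrm_add_le F G).trans (max_le ?_ ?_))
  · exact h1.le.trans (add_le_add_left (le_max_left _ _) _)
  · exact h2.le.trans (add_le_add_left (le_max_right _ _) _)

theorem qn_neg (a : A) : qn (K := K) chi w (-a) = qn (K := K) chi w a := by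
  unfold qn
  congr 1
  ext s
  constructor
  · rintro ⟨F, hF, rfl⟩
    refine ⟨-F, ?_, (BG.nrm_neg F).symm⟩
    rw [ev_eq, map_neg, ← ev_eq, hF, neg_neg]
  · rintro ⟨F, hF, rfl⟩
    refine ⟨-F, ?_, (BG.nrm_neg F).symm⟩
    rw [ev_eq, map_neg, ← ev_eq, hF]

theorem qn_zero : qn (K := K) chi w 0 = 0 := by
  have h := qn_le (K := K) (chi := chi) (w := w) 0
  rw [ev_eq, map_zero, BG.nrm_zero] at h
  exact le_antisymm h bot_le

theorem qn_mul (h0 : chi 0 = 1) (hm : ∀ m m', chi (m + m') = chi m * chi m')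
    (hs : ∀ a : A, ∃ F : N →₀ K, ev chi F = a) (a b : A) :
    qn (K := K) chi w (a * b) ≤ qn (K := K) chi w a * qn (K := K) chi w b := by
  have key : ∀ F G : N →₀ K, ev chi F = a → ev chi G = b →
      qn (K := K) chi w (a * b) ≤ BG.nrm (wt w) F * BG.nrm (wt w) G := by
    intro F G hF hG
    let H : N →₀ K := ∑ m ∈ F.support, ∑ m' ∈ G.support, Finsupp.single (m + m') (F m * G m')
    have hH : ev chi H = a * b := by
      rw [ev_eq, map_sum]
      have h1 : ∀ m ∈ F.support, Finsupp.linearCombination K chi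
          (∑ m' ∈ G.support, Finsupp.single (m + m') (F m * G m')) =
          ∑ m' ∈ G.support, (algebraMap K A (F m) * chi m) * (algebraMap K A (G m') * chi m') := by
        intro m _
        rw [map_sum]
        refine Finset.sum_congr rfl fun m' _ => ?_
        rw [Finsupp.linearCombination_single, hm, Algebra.smul_def, map_mul]
        ring
      rw [Finset.sum_congr rfl h1, ← Finset.sum_mul_sum, ← hF, ← hG]
      rfl
    rw [← hH]
    refine (qn_le _).trans ((BG.nrm_sum_le _ _).trans (Finset.sup_le fun m _ => ?_))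
    refine (BG.nrm_sum_le _ _).trans (Finset.sup_le fun m' _ => ?_)
    refine (nrm_single_le _ _ _).trans ?_
    have h2 : wt w (m + m') = wt w m * wt w m' := by
      apply NNReal.eq
      rw [NNReal.coe_mul, coe_wt, coe_wt, coe_wt, map_add, Real.exp_add]
    rw [nnnorm_mul, h2]
    calc ‖F m‖₊ * ‖G m'‖₊ * (wt w m * wt w m')
        = (‖F m‖₊ * wt w m) * (‖G m'‖₊ * wt w m') := by ring
      _ ≤ _ := mul_le_mul' (BG.le_nrm F m) (BG.le_nrm G m')
  have ht : Filter.Tendsto (fun ε : ℝ≥0 => (qn (K := K) chi w a + ε) * (qn (K := K) chi w b + ε))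
      (𝓝[>] 0) (𝓝 ((qn (K := K) chi w a + 0) * (qn (K := K) chi w b + 0))) :=
    (Continuous.tendsto (by fun_prop) 0).mono_left nhdsWithin_le_nhds
  rw [add_zero, add_zero] at ht
  refine ge_of_tendsto ht ?_
  filter_upwards [self_mem_nhdsWithin] with ε hε
  obtain ⟨F, hF, h1⟩ := exists_lt (w := w) hs a hε
  obtain ⟨G, hG, h2⟩ := exists_lt (w := w) hs b hε
  exact (key F G hF hG).trans (mul_le_mul' h1.le h2.le)

theorem qn_chi (m : N) : (qn (K := K) chi w (chi m) : ℝ) ≤ Real.exp (w m) := by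
  have h := qn_le (K := K) (chi := chi) (w := w) (Finsupp.single m 1)
  rw [ev_eq, Finsupp.linearCombination_single, one_smul] at h
  have h1 := h.trans (nrm_single_le _ _ _)
  rw [nnnorm_one, one_mul] at h1
  rw [← coe_wt]
  exact_mod_cast h1

theorem qn_C (h0 : chi 0 = 1) (c : K) : (qn (K := K) chi w (algebraMap K A c) : ℝ) ≤ ‖c‖ := by
  have h := qn_le (K := K) (chi := chi) (w := w) (Finsupp.single 0 c)
  rw [ev_eq, Finsupp.linearCombination_single, h0, Algebra.smul_def, mul_one] at h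
  have h1 := h.trans (nrm_single_le _ _ _)
  have h2 : wt w 0 = 1 := by
    apply NNReal.eq
    rw [coe_wt, map_zero, Real.exp_zero, NNReal.coe_one]
  rw [h2, mul_one] at h1
  rw [← coe_nnnorm]
  exact_mod_cast h1

/-- Points of the fibre are bounded by the quotient norm. -/
theorem v_le_qn (hs : ∀ a : A, ∃ F : N →₀ K, ev chi F = a) {z : Ber K A} (hz : z ∈ Fib K chi w)
    (a : A) : z.v a ≤ qn (K := K) chi w a := by
  have h1 : (z.v a).toNNReal ≤ qn (K := K) chi w a := by
    obtain ⟨F0, hF0⟩ := hs a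
    have hne : {s | ∃ F : N →₀ K, ev chi F = a ∧ s = BG.nrm (wt w) F}.Nonempty :=
      ⟨BG.nrm (wt w) F0, F0, hF0, rfl⟩
    refine le_csInf hne ?_
    rintro _ ⟨F, hF, rfl⟩
    rw [← NNReal.coe_le_coe, Real.coe_toNNReal _ (z.nonneg a), ← hF]
    refine z.sum_le F.support _ (NNReal.coe_nonneg _) fun m _ => ?_
    rw [v_term hz, NNReal.coe_le_coe]
    exact BG.le_nrm F m
  rw [← NNReal.coe_le_coe, Real.coe_toNNReal _ (z.nonneg a)] at h1
  exact h1

/-- A combination of characters which is zero in `A` is not single at a point with non-empty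
fibre. -/
theorem not_single {w' : N → ℝ} {z : Ber K A} (hz : z ∈ Fib K chi w') {F : N →₀ K}
    (hF : ev chi F = 0) (m : N) : ¬ BG.Single (wt w') F m := by
  classical
  rintro ⟨h1, h2⟩
  have hm : m ∈ F.support := Finsupp.mem_support_iff.2 h1
  have hpos : 0 < ((‖F m‖₊ * wt w' m : ℝ≥0) : ℝ) := by
    rw [NNReal.coe_mul, coe_wt, coe_nnnorm]
    exact mul_pos (norm_pos_iff.2 h1) (Real.exp_pos _)
  have h3 : ev chi F = algebraMap K A (F m) * chi m +
      ∑ m' ∈ F.support.erase m, algebraMap K A (F m') * chi m' := by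
    rw [Finset.add_sum_erase F.support (fun m' => algebraMap K A (F m') * chi m') hm]
    rfl
  have h4 : z.v (∑ m' ∈ F.support.erase m, algebraMap K A (F m') * chi m') <
      z.v (algebraMap K A (F m) * chi m) := by
    rw [v_term hz]
    refine sum_lt z _ _ hpos fun m' hm' => ?_
    rw [v_term hz, NNReal.coe_lt_coe]
    exact h2 m' (Finset.ne_of_mem_erase hm')
  have h5 := z.add_eq h4
  rw [← h3, hF, z.zero, v_term hz] at h5
  exact hpos.ne h5

end Pool.Agent.TD.FA
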