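import Pool.Agent.TD.FA.Gau

/-! Facets (PAPER2.md, FA2, FA4): the top point, uniqueness, density (module TD_FA_TOP). -/

open scoped Topology NNReal

namespace Pool.Agent.TD.FA

variable {K A N σ : Type} [NormedField K] [IsUltrametricDist K] [CommRing A] [Algebra K A]
  [AddCommGroup N] [Fintype σ] {chi : N → A} {u : σ → N} {coef : N →+ (σ → ℤ)} {w : N →+ ℝ}

namespace TopP

/-! ### Products of finitely supported functions -/

/-- The convolution product. -/
noncomputable def mulF {E : Type} [AddCommGroup E] (F G : E →₀ K) : E →₀ K :=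
  ∑ p ∈ F.support ×ˢ G.support, Finsupp.single (p.1 + p.2) (F p.1 * G p.2)

theorem le_nrm_mulF {E : Type} [AddCommGroup E] {wt : E → ℝ≥0} (h0 : ∀ x, 0 < wt x)
    (hadd : ∀ x y, wt (x + y) = wt x * wt y) (r : E → E → Prop) [IsStrictTotalOrder E r]
    (hr : ∀ x y z, r x y → r (x + z) (y + z)) (F G : E →₀ K) :
    BG.nrm wt F * BG.nrm wt G ≤ BG.nrm wt (mulF F G) := by
  classical
  by_cases hF : F = 0
  · subst hF
    rw [BG.nrm_zero, zero_mul]; exact bot_le
  by_cases hG : G = 0
  · subst hG
    rw [BG.nrm_zero, mul_zero]; exact bot_le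
  obtain ⟨x, hx⟩ := BG.exists_isLM h0 r hF
  obtain ⟨y, hy⟩ := BG.exists_isLM h0 r hG
  rw [hx.nrm_eq, hy.nrm_eq]
  have hpos : 0 < ‖F x * G y‖₊ := by
    rw [nnnorm_mul]
    exact mul_pos (nnnorm_pos.2 hx.1) (nnnorm_pos.2 hy.1)
  have hmem : (x, y) ∈ F.support ×ˢ G.support := by
    rw [Finset.mem_product]
    exact ⟨Finsupp.mem_support_iff.2 hx.1, Finsupp.mem_support_iff.2 hy.1⟩
  have key : ∀ p ∈ (F.support ×ˢ G.support).erase (x, y),
      ‖(Finsupp.single (p.1 + p.2) (F p.1 * G p.2) : E →₀ K) (x + y)‖₊ < ‖F x * G y‖₊ := by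
    rintro ⟨a, b⟩ hab
    rw [Finset.mem_erase] at hab
    by_cases hs : a + b = x + y
    · show ‖(Finsupp.single (a + b) (F a * G b) : E →₀ K) (x + y)‖₊ < _
      rw [hs, Finsupp.single_eq_same]
      have hw : wt a * wt b = wt x * wt y := by rw [← hadd, ← hadd, hs]
      have hwp : 0 < wt x * wt y := mul_pos (h0 x) (h0 y)
      have hax : a ≠ x := by
        intro e
        subst e
        have : b = y := add_left_cancel hs
        exact hab.1 (by rw [this])
      have hby : b ≠ y := by
        intro e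
        subst e
        exact hax (add_right_cancel hs)
      have h1 : ‖F a‖₊ * wt a * (‖G b‖₊ * wt b) < ‖F x‖₊ * wt x * (‖G y‖₊ * wt y) := by
        rcases trichotomous_of r x a with h2 | h2 | h2
        · exact (mul_le_mul_right ((hy.2 b hby).1) _).trans_lt
            (mul_lt_mul_of_pos_right ((hx.2 a hax).2 h2) (mul_pos (nnnorm_pos.2 hy.1) (h0 y)))
        · exact absurd h2.symm hax
        · have h3 : r y b := by
            rcases trichotomous_of r y b with h4 | h4 | h4
            · exact h4
            · exact absurd h4.symm hby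
            · exfalso
              have h5 := hr _ _ b h2
              have h6 := hr _ _ x h4
              rw [hs] at h5
              rw [add_comm b x, add_comm y x] at h6
              exact irrefl_of r _ (trans_of r h5 h6)
          exact (mul_le_mul_left ((hx.2 a hax).1) _).trans_lt
            (mul_lt_mul_of_pos_left ((hy.2 b hby).2 h3) (mul_pos (nnnorm_pos.2 hx.1) (h0 x)))
      rw [nnnorm_mul, nnnorm_mul]
      have e1 : ‖F a‖₊ * wt a * (‖G b‖₊ * wt b) = ‖F a‖₊ * ‖G b‖₊ * (wt x * wt y) := by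
        rw [← hw]; ring
      have e2 : ‖F x‖₊ * wt x * (‖G y‖₊ * wt y) = ‖F x‖₊ * ‖G y‖₊ * (wt x * wt y) := by ring
      rw [e1, e2] at h1
      exact lt_of_mul_lt_mul_right h1 hwp.le
    · show ‖(Finsupp.single (a + b) (F a * G b) : E →₀ K) (x + y)‖₊ < _
      rw [Finsupp.single_eq_of_ne (Ne.symm hs), nnnorm_zero]
      exact hpos
  have hval : mulF F G (x + y) = F x * G y +
      ∑ p ∈ (F.support ×ˢ G.support).erase (x, y),
        (Finsupp.single (p.1 + p.2) (F p.1 * G p.2) : E →₀ K) (x + y) := by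
    unfold mulF
    rw [← Finset.add_sum_erase _ _ hmem, Finsupp.add_apply, Finsupp.finsetSum_apply]
    show (Finsupp.single (x + y) (F x * G y) : E →₀ K) (x + y) + _ = _
    rw [Finsupp.single_eq_same]
  have hsum : ‖∑ p ∈ (F.support ×ˢ G.support).erase (x, y),
        (Finsupp.single (p.1 + p.2) (F p.1 * G p.2) : E →₀ K) (x + y)‖₊ < ‖F x * G y‖₊ := by
    have h1 : ∀ (s : Finset (E × E)) (f : E × E → K), (∀ p ∈ s, ‖f p‖₊ < ‖F x * G y‖₊) →
        ‖∑ p ∈ s, f p‖₊ < ‖F x * G y‖₊ := by
      intro s f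
      induction s using Finset.induction_on with
      | empty => intro _; simpa using hpos
      | insert i s hi ih =>
        intro h
        rw [Finset.sum_insert hi]
        exact (IsUltrametricDist.nnnorm_add_le_max _ _).trans_lt
          (max_lt (h i (Finset.mem_insert_self _ _))
            (ih fun j hj => h j (Finset.mem_insert_of_mem hj)))
    exact h1 _ _ key
  have hnorm : ‖mulF F G (x + y)‖₊ = ‖F x * G y‖₊ := by
    rw [hval, IsUltrametricDist.nnnorm_add_eq_max_of_nnnorm_ne_nnnorm hsum.ne', max_eq_left hsum.le]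
  calc ‖F x‖₊ * wt x * (‖G y‖₊ * wt y) = ‖mulF F G (x + y)‖₊ * wt (x + y) := by
        rw [hnorm, hadd, nnnorm_mul]; ring
    _ ≤ _ := BG.le_nrm _ _

/-- A strict total order on exponents, compatible with addition. -/
theorem exists_order (σ : Type) [Fintype σ] : ∃ r : (σ → ℤ) → (σ → ℤ) → Prop,
    IsStrictTotalOrder (σ → ℤ) r ∧ ∀ x y z, r x y → r (x + z) (y + z) := by
  classical
  let e := Fintype.equivFin σ
  let f : (σ → ℤ) → Lex (Fin (Fintype.card σ) → ℤ) := fun x => toLex fun j => x (e.symm j)
  have hf : Function.Injective f := by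
    intro x y h
    have h1 : (fun j => x (e.symm j)) = fun j => y (e.symm j) := toLex.injective h
    funext i
    have h2 := congrFun h1 (e i)
    simpa using h2
  have hadd : ∀ x y, f (x + y) = f x + f y := fun x y => rfl
  refine ⟨fun x y => f x < f y, ?_, ?_⟩
  · exact {
      trichotomous := fun x y h1 h2 => hf (le_antisymm (not_lt.1 h2) (not_lt.1 h1))
      irrefl := fun x => lt_irrefl _
      trans := fun x y z => lt_trans }
  · intro x y z h
    show f (x + z) < f (y + z)
    rw [hadd, hadd]
    exact add_lt_add_iff_right _ |>.2 h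

/-! ### Evaluation -/

theorem ev_eq_sum {N : Type} (chi : N → A) (F : N →₀ K) :
    ev chi F = F.sum fun m c => algebraMap K A c * chi m := rfl

theorem ev_zero {N : Type} (chi : N → A) : ev chi (0 : N →₀ K) = 0 := Finsupp.sum_zero_index

theorem ev_add {N : Type} (chi : N → A) (F G : N →₀ K) :
    ev chi (F + G) = ev chi F + ev chi G := by
  classical
  unfold ev
  exact Finsupp.sum_add_index' (by simp) (by intros; rw [map_add, add_mul])

theorem ev_single {N : Type} (chi : N → A) (m : N) (c : K) :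
    ev chi (Finsupp.single m c) = algebraMap K A c * chi m := by
  unfold ev
  exact Finsupp.sum_single_index (by simp)

theorem ev_sum {N ι : Type} (chi : N → A) (s : Finset ι) (f : ι → N →₀ K) :
    ev chi (∑ i ∈ s, f i) = ∑ i ∈ s, ev chi (f i) := by
  classical
  induction s using Finset.induction_on with
  | empty => simp [ev_zero]
  | insert i s hi ih => rw [Finset.sum_insert hi, ev_add, ih, Finset.sum_insert hi]

theorem ev_mulF {E : Type} [AddCommGroup E] (chi : E → A)
    (hadd : ∀ x y, chi (x + y) = chi x * chi y) (F G : E →₀ K) :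
    ev chi (mulF F G) = ev chi F * ev chi G := by
  unfold mulF
  rw [ev_sum, Finset.sum_product]
  unfold ev
  rw [Finsupp.sum, Finsupp.sum, Finset.sum_mul_sum]
  refine Finset.sum_congr rfl fun a _ => Finset.sum_congr rfl fun b _ => ?_
  rw [Finsupp.sum_single_index (by simp), hadd, map_mul]
  ring

/-! ### Characters of the facet -/

theorem um_zero : um u 0 = 0 := by simp [um]

theorem um_add (a b : σ → ℤ) : um u (a + b) = um u a + um u b := by
  unfold um
  rw [← Finset.sum_add_distrib]
  exact Finset.sum_congr rfl fun i _ => by rw [Pi.add_apply, add_smul]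

theorem w_um (a : σ → ℤ) : w (um u a) = ∑ i, (a i : ℝ) * w (u i) := by
  unfold um
  rw [map_sum]
  exact Finset.sum_congr rfl fun i _ => by rw [map_zsmul, zsmul_eq_mul]

theorem coe_wt {N : Type} (w : N → ℝ) (m : N) : (wt w m : ℝ) = Real.exp (w m) :=
  Real.coe_toNNReal _ (Real.exp_pos _).le

theorem wt_pos {N : Type} (w : N → ℝ) (m : N) : 0 < wt w m := by
  rw [← NNReal.coe_pos, coe_wt]; exact Real.exp_pos _

theorem wt_um_add (x y : σ → ℤ) : wt (fun n => w (um u n)) (x + y) =
    wt (fun n => w (um u n)) x * wt (fun n => w (um u n)) y := by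
  apply NNReal.eq
  rw [NNReal.coe_mul, coe_wt, coe_wt, coe_wt, ← Real.exp_add, um_add, map_add]

theorem qn_mul_laurent (h : Facet K chi u coef w) (F G : (σ → ℤ) →₀ K) :
    qn (K := K) chi w (ev (fun n => chi (um u n)) F * ev (fun n => chi (um u n)) G) =
      qn (K := K) chi w (ev (fun n => chi (um u n)) F) *
        qn (K := K) chi w (ev (fun n => chi (um u n)) G) := by
  refine le_antisymm (qn_mul h.chi_zero h.chi_add h.span _ _) ?_
  obtain ⟨r, hr, hr'⟩ := exists_order σ
  have hm : ∀ x y, (fun n => chi (um u n)) (x + y) =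
      (fun n => chi (um u n)) x * (fun n => chi (um u n)) y := by
    intro x y
    show chi (um u (x + y)) = chi (um u x) * chi (um u y)
    rw [um_add, h.chi_add]
  rw [← ev_mulF _ hm, qn_laurent h, qn_laurent h, qn_laurent h]
  exact le_nrm_mulF (fun x => wt_pos _ x) wt_um_add r hr' F G

theorem qn_sub_comm (a b : A) : qn (K := K) chi w (a - b) = qn (K := K) chi w (b - a) := by
  rw [← qn_neg, neg_sub]

/-- elements which are close have the same norm -/
theorem qn_eq_of_approx (hs : ∀ a : A, ∃ F : N →₀ K, ev chi F = a) {a b : A}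
    (h : qn (K := K) chi w (a - b) < qn (K := K) chi w a) :
    qn (K := K) chi w b = qn (K := K) chi w a := by
  apply le_antisymm
  · have h1 := qn_add (K := K) (w := w) hs a (b - a)
    rw [show a + (b - a) = b by ring, qn_sub_comm] at h1
    exact h1.trans (max_le le_rfl h.le)
  · by_contra hc
    push Not at hc
    have h1 := qn_add (K := K) (w := w) hs (a - b) b
    rw [show a - b + b = a by ring] at h1
    exact absurd h1 (not_le.2 (max_lt h hc))

end TopP

open TopP

/-- (FA4) the quotient norm is multiplicative. -/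
theorem qn_mul_eq (h : Facet K chi u coef w) (a b : A) :
    qn (K := K) chi w (a * b) = qn (K := K) chi w a * qn (K := K) chi w b := by
  have hle : ∀ a b : A, qn (K := K) chi w (a * b) ≤ qn (K := K) chi w a * qn (K := K) chi w b :=
    fun a b => qn_mul h.chi_zero h.chi_add h.span a b
  by_cases ha : qn (K := K) chi w a = 0
  · have h1 := hle a b
    rw [ha, zero_mul] at h1 ⊢
    exact le_antisymm h1 bot_le
  by_cases hb : qn (K := K) chi w b = 0
  · have h1 := hle a b
    rw [hb, mul_zero] at h1 ⊢
    exact le_antisymm h1 bot_le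
  have ha' : 0 < qn (K := K) chi w a := pos_iff_ne_zero.2 ha
  have hb' : 0 < qn (K := K) chi w b := pos_iff_ne_zero.2 hb
  obtain ⟨F, hF⟩ := exists_approx h a (ε := ((min (qn (K := K) chi w a) (qn (K := K) chi w b) :
    ℝ≥0) : ℝ)) (NNReal.coe_pos.2 (lt_min ha' hb'))
  obtain ⟨G, hG⟩ := exists_approx h b (ε := ((min (qn (K := K) chi w a) (qn (K := K) chi w b) :
    ℝ≥0) : ℝ)) (NNReal.coe_pos.2 (lt_min ha' hb'))
  rw [NNReal.coe_lt_coe] at hF hG
  set a' := ev (fun n => chi (um u n)) F with ha1
  set b' := ev (fun n => chi (um u n)) G with hb1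
  have e1 : qn (K := K) chi w a' = qn (K := K) chi w a :=
    qn_eq_of_approx h.span (hF.trans_le (min_le_left _ _))
  have e2 : qn (K := K) chi w b' = qn (K := K) chi w b :=
    qn_eq_of_approx h.span (hG.trans_le (min_le_right _ _))
  have e3 : qn (K := K) chi w (a' * b') = qn (K := K) chi w a * qn (K := K) chi w b := by
    rw [← e1, ← e2]
    exact qn_mul_laurent h F G
  rw [← e3]
  apply qn_eq_of_approx h.span
  rw [e3, qn_sub_comm, show a * b - a' * b' = (a - a') * b + a' * (b - b') by ring]
  refine (qn_add h.span _ _).trans_lt (max_lt ((hle _ _).trans_lt ?_) ((hle _ _).trans_lt ?_))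
  · exact mul_lt_mul_of_pos_right (hF.trans_le (min_le_left _ _)) hb'
  · rw [e1]
    exact mul_lt_mul_of_pos_left (hG.trans_le (min_le_right _ _)) ha'

namespace TopP

theorem chi_nsmul (h : Facet K chi u coef w) (n : ℕ) (m : N) : chi (n • m) = chi m ^ n := by
  induction n with
  | zero => rw [zero_smul, h.chi_zero, pow_zero]
  | succ n ih => rw [succ_nsmul, h.chi_add, ih, pow_succ]

theorem chi_sum (h : Facet K chi u coef w) {ι : Type} (s : Finset ι) (f : ι → N) :
    chi (∑ i ∈ s, f i) = ∏ i ∈ s, chi (f i) := by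
  classical
  induction s using Finset.induction_on with
  | empty => simp [h.chi_zero]
  | insert i s hi ih => rw [Finset.sum_insert hi, h.chi_add, ih, Finset.prod_insert hi]

/-- natural exponents as integral exponents -/
def nz (s : σ →₀ ℕ) : σ → ℤ := fun i => (s i : ℤ)

omit [Fintype σ] in
theorem nz_inj : Function.Injective (nz : (σ →₀ ℕ) → (σ → ℤ)) := by
  intro s t h
  ext i
  have := congrFun h i
  exact Nat.cast_injective this

theorem chi_nz (h : Facet K chi u coef w) (s : σ →₀ ℕ) :
    chi (um u (nz s)) = s.prod fun i k => chi (u i) ^ k := by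
  rw [Finsupp.prod_fintype _ _ (by simp)]
  unfold um
  rw [chi_sum h]
  refine Finset.prod_congr rfl fun i _ => ?_
  rw [← chi_nsmul h]
  show chi ((s i : ℤ) • u i) = _
  rw [natCast_zsmul]

theorem wt_nz (s : σ →₀ ℕ) :
    wt (fun n => w (um u n)) (nz s) = s.prod fun i k => wt w (u i) ^ k := by
  rw [Finsupp.prod_fintype _ _ (by simp)]
  apply NNReal.eq
  rw [coe_wt, NNReal.coe_prod, w_um, Real.exp_sum]
  refine Finset.prod_congr rfl fun i _ => ?_
  rw [NNReal.coe_pow, coe_wt, ← Real.exp_nat_mul]
  rfl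

/-- A polynomial as a Laurent polynomial. -/
noncomputable def toL (P : MvPolynomial σ K) : (σ → ℤ) →₀ K :=
  ∑ s ∈ P.support, Finsupp.single (nz s) (P.coeff s)

omit [IsUltrametricDist K] [Fintype σ] in
theorem toL_nz (P : MvPolynomial σ K) (s : σ →₀ ℕ) : toL P (nz s) = P.coeff s := by
  classical
  unfold toL
  rw [Finsupp.finsetSum_apply]
  rw [Finset.sum_eq_single s]
  · exact Finsupp.single_eq_same
  · intro t _ hts
    exact Finsupp.single_eq_of_ne fun e => hts (nz_inj e).symm
  · intro hs
    rw [MvPolynomial.notMem_support_iff.1 hs]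
    simp

omit [IsUltrametricDist K] [Fintype σ] in
theorem toL_other (P : MvPolynomial σ K) (n : σ → ℤ) (hn : ∀ s, n ≠ nz s) : toL P n = 0 := by
  classical
  unfold toL
  rw [Finsupp.finsetSum_apply]
  exact Finset.sum_eq_zero fun s _ => Finsupp.single_eq_of_ne (hn s)

theorem ev_toL (h : Facet K chi u coef w) (P : MvPolynomial σ K) :
    ev (fun n => chi (um u n)) (toL P) = MvPolynomial.aeval (fun i => chi (u i)) P := by
  unfold toL
  rw [ev_sum, MvPolynomial.aeval_def, MvPolynomial.eval₂_eq]
  refine Finset.sum_congr rfl fun s _ => ?_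
  rw [ev_single, chi_nz h]
  rfl

theorem nrm_toL (P : MvPolynomial σ K) :
    BG.nrm (wt fun n => w (um u n)) (toL P) = gn (fun i => wt w (u i)) P := by
  apply le_antisymm
  · rw [BG.nrm_le_iff]
    intro n
    by_cases hn : ∃ s, n = nz s
    · obtain ⟨s, rfl⟩ := hn
      rw [toL_nz, wt_nz]
      by_cases hs : P.coeff s = 0
      · rw [hs, nnnorm_zero, zero_mul]; exact bot_le
      · exact Finset.le_sup (f := fun t : σ →₀ ℕ => ‖P.coeff t‖₊ * t.prod fun i k =>
          wt w (u i) ^ k) (MvPolynomial.mem_support_iff.2 hs)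
    · push Not at hn
      rw [toL_other P n hn, nnnorm_zero, zero_mul]; exact bot_le
  · refine Finset.sup_le fun s _ => ?_
    have h1 := BG.le_nrm (wt := wt fun n => w (um u n)) (toL P) (nz s)
    rwa [toL_nz, wt_nz] at h1

theorem qn_algebraMap (h : Facet K chi u coef w) (c : K) :
    qn (K := K) chi w (algebraMap K A c) = ‖c‖₊ := by
  have h1 : ev (fun n => chi (um u n)) (Finsupp.single 0 c) = algebraMap K A c := by
    rw [ev_single, um_zero, h.chi_zero, mul_one]
  rw [← h1, qn_laurent h]
  have h0 : wt (fun n => w (um u n)) (0 : σ → ℤ) = 1 := by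
    apply NNReal.eq
    rw [coe_wt, um_zero, map_zero, Real.exp_zero]
    rfl
  apply le_antisymm
  · rw [BG.nrm_le_iff]
    intro n
    by_cases hn : n = 0
    · subst hn
      rw [Finsupp.single_eq_same, h0, mul_one]
    · rw [Finsupp.single_eq_of_ne hn, nnnorm_zero, zero_mul]; exact bot_le
  · have h2 := BG.le_nrm (wt := wt fun n => w (um u n)) (Finsupp.single 0 c : (σ → ℤ) →₀ K) 0
    rwa [Finsupp.single_eq_same, h0, mul_one] at h2

theorem qn_one (h : Facet K chi u coef w) : qn (K := K) chi w (1 : A) = 1 := by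
  have h1 := qn_algebraMap h (1 : K)
  rwa [map_one, nnnorm_one] at h1

theorem qn_chi_eq (h : Facet K chi u coef w) (m : N) :
    (qn (K := K) chi w (chi m) : ℝ) = Real.exp (w m) := by
  refine le_antisymm (qn_chi m) ?_
  have h1 : (qn (K := K) chi w (chi m) : ℝ) * qn (K := K) chi w (chi (-m)) = 1 := by
    rw [← NNReal.coe_mul, ← qn_mul_eq h, ← h.chi_add, add_neg_cancel, h.chi_zero, qn_one h]
    rfl
  have h2 : (qn (K := K) chi w (chi (-m)) : ℝ) ≤ Real.exp (w (-m)) := qn_chi (-m)
  have h3 : 1 ≤ (qn (K := K) chi w (chi m) : ℝ) * Real.exp (w (-m)) := by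
    rw [← h1]
    exact mul_le_mul_of_nonneg_left h2 (NNReal.coe_nonneg _)
  rw [map_neg, Real.exp_neg, ← div_eq_mul_inv, le_div_iff₀ (Real.exp_pos _), one_mul] at h3
  exact h3

/-- The quotient norm as a point. -/
noncomputable def pt (h : Facet K chi u coef w) : Ber K A where
  v a := qn (K := K) chi w a
  nonneg a := NNReal.coe_nonneg _
  one := by rw [qn_one h]; rfl
  mul a b := by rw [qn_mul_eq h]; rfl
  add a b := by
    have := qn_add (K := K) (w := w) h.span a b
    rw [← NNReal.coe_max]
    exact_mod_cast this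
  ext c := by rw [qn_algebraMap h]; rfl

end TopP

/-- The top point of the facet. -/
theorem exists_top (h : Facet K chi u coef w) : ∃ z ∈ Fib K chi w, (∀ z' ∈ Fib K chi w, z' ≤ z) ∧
    GaussAt (fun i => chi (u i)) (fun i => wt w (u i)) z := by
  refine ⟨TopP.pt h, fun m => qn_chi_eq h m, fun z' hz' a => v_le_qn h.span hz' a, fun P => ?_⟩
  show (qn (K := K) chi w _ : ℝ) = _
  rw [← ev_toL h, qn_laurent h, nrm_toL]

namespace TopP

/-- clearing denominators -/
theorem clear (h : Facet K chi u coef w) (G : (σ → ℤ) →₀ K) :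
    ∃ (k : σ →₀ ℕ) (P : MvPolynomial σ K),
      MvPolynomial.aeval (fun i => chi (u i)) (MvPolynomial.monomial k (1 : K)) *
        ev (fun n => chi (um u n)) G = MvPolynomial.aeval (fun i => chi (u i)) P := by
  classical
  induction G using Finsupp.induction_linear with
  | zero => exact ⟨0, 0, by rw [ev_zero, mul_zero, map_zero]⟩
  | add F G hF hG =>
    obtain ⟨k, P, hP⟩ := hF
    obtain ⟨l, Q, hQ⟩ := hG
    refine ⟨k + l, MvPolynomial.monomial l 1 * P + MvPolynomial.monomial k 1 * Q, ?_⟩
    have e : (MvPolynomial.monomial (k + l) (1 : K) : MvPolynomial σ K) =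
        MvPolynomial.monomial k 1 * MvPolynomial.monomial l 1 := by
      rw [MvPolynomial.monomial_mul, one_mul]
    rw [e, ev_add, map_mul, map_add, map_mul, map_mul, ← hP, ← hQ]
    ring
  | single n c =>
    let k : σ →₀ ℕ := Finsupp.equivFunOnFinite.symm fun i => (-n i).toNat
    let l : σ →₀ ℕ := Finsupp.equivFunOnFinite.symm fun i => (n i).toNat
    refine ⟨k, MvPolynomial.monomial l c, ?_⟩
    rw [MvPolynomial.aeval_monomial, MvPolynomial.aeval_monomial, ← chi_nz h, ← chi_nz h,
      ev_single, map_one, one_mul]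
    have e : nz k + n = nz l := by
      funext i
      show (((-n i).toNat : ℕ) : ℤ) + n i = (((n i).toNat : ℕ) : ℤ)
      omega
    rw [← e, um_add, h.chi_add]
    ring

theorem v_um (h : Facet K chi u coef w) {z : Ber K A} (hz : z ∈ Fib K chi w) (k : σ →₀ ℕ) :
    z.v (MvPolynomial.aeval (fun i => chi (u i)) (MvPolynomial.monomial k (1 : K))) =
      Real.exp (w (um u (nz k))) := by
  rw [MvPolynomial.aeval_monomial, ← chi_nz h, map_one, one_mul]
  exact hz _

end TopP

/-- (FA2) -/
theorem fib_uniq (h : Facet K chi u coef w) {z z' : Ber K A} (hz : z ∈ Fib K chi w)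
    (hz' : z' ∈ Fib K chi w) (e : fam (fun i => chi (u i)) z = fam (fun i => chi (u i)) z') :
    z = z' := by
  have hP : ∀ P : MvPolynomial σ K, z.v (MvPolynomial.aeval (fun i => chi (u i)) P) =
      z'.v (MvPolynomial.aeval (fun i => chi (u i)) P) := by
    intro P
    rw [← fam_v, ← fam_v, e]
  have hG : ∀ G : (σ → ℤ) →₀ K, z.v (ev (fun n => chi (um u n)) G) =
      z'.v (ev (fun n => chi (um u n)) G) := by
    intro G
    obtain ⟨k, P, hk⟩ := clear h G
    have h1 := hP P
    rw [← hk, z.mul, z'.mul, v_um h hz, v_um h hz'] at h1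
    exact mul_left_cancel₀ (Real.exp_pos _).ne' h1
  have hle : ∀ {z z' : Ber K A}, z ∈ Fib K chi w → z' ∈ Fib K chi w →
      (∀ G : (σ → ℤ) →₀ K, z.v (ev (fun n => chi (um u n)) G) =
        z'.v (ev (fun n => chi (um u n)) G)) → ∀ a, z.v a ≤ z'.v a := by
    intro z z' hz hz' hG a
    refine le_of_forall_pos_le_add fun ε hε => ?_
    obtain ⟨G, hGa⟩ := exists_approx h a (half_pos hε)
    set g := ev (fun n => chi (um u n)) G with hg
    have h1 : z.v a ≤ z.v (a - g) + z.v g := by
      have := z.add (a - g) g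
      rw [sub_add_cancel] at this
      exact this.trans (max_le_add_of_nonneg (z.nonneg _) (z.nonneg _))
    have h2 : z'.v g ≤ z'.v (a - g) + z'.v a := by
      have := z'.add (g - a) a
      rw [sub_add_cancel, Ber.sub_comm] at this
      exact this.trans (max_le_add_of_nonneg (z'.nonneg _) (z'.nonneg _))
    have h3 : z.v (a - g) ≤ ε / 2 := (v_le_qn h.span hz _).trans hGa.le
    have h4 : z'.v (a - g) ≤ ε / 2 := (v_le_qn h.span hz' _).trans hGa.le
    have h5 := hG G
    rw [← hg] at h5
    linarith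
  apply Ber.ext_v
  intro a
  exact le_antisymm (hle hz hz' hG a) (hle hz' hz (fun G => (hG G).symm) a)

/-- (FA2) -/
theorem fib_dens (h : Facet K chi u coef w) {z : Ber K A} (hz : z ∈ Fib K chi w) :
    Dens (MvPolynomial.aeval fun i => chi (u i) : MvPolynomial σ K →ₐ[K] A) z := by
  intro a ε hε
  obtain ⟨G, hGa⟩ := exists_approx h a hε
  obtain ⟨k, P, hk⟩ := clear h G
  have hpos : 0 < z.v (MvPolynomial.aeval (fun i => chi (u i))
      (MvPolynomial.monomial k (1 : K))) := by
    rw [v_um h hz]; exact Real.exp_pos _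
  refine ⟨P, MvPolynomial.monomial k (1 : K), hpos.ne', ?_⟩
  rw [← hk, ← mul_sub, z.mul, mul_comm]
  exact mul_lt_mul_of_pos_right ((v_le_qn h.span hz _).trans_lt hGa) hpos

end Pool.Agent.TD.FA
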